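import Mathlib

set_option autoImplicit false

open Finset

namespace Q58.MR

/-- Ramsey's theorem. -/
theorem ramsey_aux : ∀ k a b : ℕ, a + b ≤ k → ∃ N : ℕ, ∀ (V : Type) [Fintype V] (R : SimpleGraph V)
    (S : Finset V), N ≤ S.card →
      (∃ T ⊆ S, T.card = a ∧ R.IsClique T) ∨ (∃ T ⊆ S, T.card = b ∧ Rᶜ.IsClique T) := by
  classical
  intro k
  induction k with
  | zero =>
    intro a b hab
    refine ⟨0, fun V _ R S _ => Or.inl ⟨∅, empty_subset _, ?_, by simp⟩⟩
    rw [card_empty]; omega
  | succ k ih =>
    intro a b hab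
    rcases Nat.eq_zero_or_pos a with rfl | ha
    · exact ⟨0, fun V _ R S _ => Or.inl ⟨∅, empty_subset _, by simp, by simp⟩⟩
    rcases Nat.eq_zero_or_pos b with rfl | hb
    · exact ⟨0, fun V _ R S _ => Or.inr ⟨∅, empty_subset _, by simp, by simp⟩⟩
    obtain ⟨N1, h1⟩ := ih (a - 1) b (by omega)
    obtain ⟨N2, h2⟩ := ih a (b - 1) (by omega)
    refine ⟨N1 + N2 + 1, fun V _ R S hS => ?_⟩
    have hSn : S.Nonempty := card_pos.1 (by omega)
    obtain ⟨v, hv⟩ := hSn
    have hsplit : S ⊆ insert v (S.filter (fun w => R.Adj v w) ∪ S.filter (fun w => Rᶜ.Adj v w)) := by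
      intro w hw
      simp only [mem_insert, mem_union, mem_filter, SimpleGraph.compl_adj]
      by_cases hwv : w = v
      · exact Or.inl hwv
      · by_cases hr : R.Adj v w
        · exact Or.inr (Or.inl ⟨hw, hr⟩)
        · exact Or.inr (Or.inr ⟨hw, fun h => hwv h.symm, hr⟩)
    have hc := (card_le_card hsplit).trans ((card_insert_le _ _).trans
      (Nat.add_le_add_right (card_union_le _ _) 1))
    rcases le_or_gt N1 (S.filter (fun w => R.Adj v w)).card with h | h
    · rcases h1 V R _ h with ⟨T, hT, hTc, hTR⟩ | ⟨T, hT, hTc, hTR⟩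
      · left
        have hvT : v ∉ T := fun hvT => R.loopless.irrefl v (mem_filter.1 (hT hvT)).2
        refine ⟨insert v T, ?_, ?_, ?_⟩
        · intro w hw
          rcases mem_insert.1 hw with rfl | hw
          · exact hv
          · exact (mem_filter.1 (hT hw)).1
        · rw [card_insert_of_notMem hvT]; omega
        · rw [coe_insert]
          refine SimpleGraph.IsClique.insert hTR ?_
          intro w hw _
          exact (mem_filter.1 (hT hw)).2
      · exact Or.inr ⟨T, hT.trans (filter_subset _ _), hTc, hTR⟩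
    · have h' : N2 ≤ (S.filter (fun w => Rᶜ.Adj v w)).card := by omega
      rcases h2 V R _ h' with ⟨T, hT, hTc, hTR⟩ | ⟨T, hT, hTc, hTR⟩
      · exact Or.inl ⟨T, hT.trans (filter_subset _ _), hTc, hTR⟩
      · right
        have hvT : v ∉ T := fun hvT => Rᶜ.loopless.irrefl v (mem_filter.1 (hT hvT)).2
        refine ⟨insert v T, ?_, ?_, ?_⟩
        · intro w hw
          rcases mem_insert.1 hw with rfl | hw
          · exact hv
          · exact (mem_filter.1 (hT hw)).1
        · rw [card_insert_of_notMem hvT]; omega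
        · rw [coe_insert]
          refine SimpleGraph.IsClique.insert hTR ?_
          intro w hw _
          exact (mem_filter.1 (hT hw)).2

theorem contained_of_clique {n N : ℕ} (G : SimpleGraph (Fin n)) (R : SimpleGraph (Fin N))
    (T : Finset (Fin N)) (hT : T.card = n) (hR : R.IsClique T) : G.IsContained R := by
  let e : Fin n ≃ T := (Fintype.equivFinOfCardEq (by simp [hT])).symm
  refine ⟨⟨⟨fun x => (e x : Fin N), ?_⟩, ?_⟩⟩
  · intro x y hxy
    exact hR (e x).2 (e y).2 (fun h => hxy.ne (e.injective (Subtype.ext h)))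
  · intro x y hxy
    exact e.injective (Subtype.ext hxy)

theorem ramsey_exists {n : ℕ} (G : SimpleGraph (Fin n)) :
    ∃ N : ℕ, ∀ R : SimpleGraph (Fin N), G.IsContained R ∨ G.IsContained Rᶜ := by
  obtain ⟨N, hN⟩ := ramsey_aux (n + n) n n le_rfl
  refine ⟨N, fun R => ?_⟩
  rcases hN (Fin N) R univ (by simp) with ⟨T, _, hT, hR⟩ | ⟨T, _, hT, hR⟩
  · exact Or.inl (contained_of_clique G R T hT hR)
  · exact Or.inr (contained_of_clique G Rᶜ T hT hR)

/-- The lower bound. -/
theorem lower {n N : ℕ} (hn : 1 ≤ n) (G : SimpleGraph (Fin n)) (hG : ∀ v, ∃ w, G.Adj v w)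
    (hN : ∀ R : SimpleGraph (Fin N), G.IsContained R ∨ G.IsContained Rᶜ) :
    ∃ t, N = n + t ∧ n < 2 ^ (t + 2) * (t + 1) := by
  classical
  have hnN : n ≤ N := by
    rcases hN ⊥ with h | h
    · obtain ⟨φ⟩ := h
      simpa using Fintype.card_le_of_injective φ φ.injective
    · obtain ⟨φ⟩ := h
      simpa using Fintype.card_le_of_injective φ φ.injective
  obtain ⟨t, rfl⟩ := Nat.exists_eq_add_of_le hnN
  refine ⟨t, rfl, ?_⟩
  -- a small vertex cover
  obtain ⟨T, hT1, hT2⟩ : ∃ T : Finset (Fin n), T.card ≤ t + 1 ∧ ∀ u v, G.Adj u v → u ∈ T ∨ v ∈ T := by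
    let R : SimpleGraph (Fin (n + t)) :=
      { Adj := fun x y => x ≠ y ∧ (x : ℕ) < n - 1 ∧ (y : ℕ) < n - 1
        symm := ⟨fun x y h => ⟨h.1.symm, h.2.2, h.2.1⟩⟩
        loopless := ⟨fun x h => h.1 rfl⟩ }
    rcases hN R with h | h
    · obtain ⟨φ⟩ := h
      exfalso
      have h1 : ∀ v, (φ v : ℕ) < n - 1 := by
        intro v
        obtain ⟨w, hw⟩ := hG v
        exact (φ.toHom.map_adj hw).2.1
      have := Finset.card_le_card_of_injOn (s := (univ : Finset (Fin n)))
        (t := range (n - 1)) (fun v => (φ v : ℕ)) (fun v _ => by simpa using h1 v)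
        (fun v _ w _ h => φ.injective (Fin.ext h))
      simp at this
      omega
    · obtain ⟨φ⟩ := h
      refine ⟨univ.filter (fun v => n - 1 ≤ (φ v : ℕ)), ?_, ?_⟩
      · have := Finset.card_le_card_of_injOn (s := univ.filter (fun v => n - 1 ≤ (φ v : ℕ)))
          (t := Ico (n - 1) (n + t)) (fun v => (φ v : ℕ)) (fun v hv => by
            have h1 := (mem_filter.1 (mem_coe.1 hv)).2
            simp only [coe_Ico, Set.mem_Ico]
            exact ⟨h1, (φ v).2⟩)
          (fun v _ w _ h => φ.injective (Fin.ext h))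
        rw [Nat.card_Ico] at this
        omega
      · intro u v huv
        have h1 := φ.toHom.map_adj huv
        rw [SimpleGraph.compl_adj] at h1
        by_contra h2
        push Not at h2
        simp only [mem_filter, mem_univ, true_and, not_le] at h2
        exact h1.2 ⟨h1.1, h2.1, h2.2⟩
  -- the possible traces of a part
  let S1 : Finset (Finset (Fin n)) := univ.filter (fun S => ∀ u v, G.Adj u v → (u ∈ S ↔ v ∈ S))
  let S2 : Finset (Finset (Fin n)) := univ.filter (fun S => ∀ u v, G.Adj u v → (u ∈ S ↔ v ∉ S))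
  have c1 : S1.card ≤ 2 ^ (t + 1) := by
    have : S1.card ≤ T.powerset.card := by
      apply Finset.card_le_card_of_injOn (fun S => S ∩ T)
      · intro S _
        simp only [coe_powerset, Set.mem_preimage, Set.mem_powerset_iff, coe_subset]
        exact inter_subset_right
      · intro S hS S' hS' h
        have hS := (mem_filter.1 (mem_coe.1 hS)).2
        have hS' := (mem_filter.1 (mem_coe.1 hS')).2
        have key : ∀ x ∈ T, (x ∈ S ↔ x ∈ S') := by
          intro x hx
          have := congrArg (fun A : Finset (Fin n) => x ∈ A) h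
          simpa [hx] using this
        ext v
        obtain ⟨w, hw⟩ := hG v
        rcases hT2 v w hw with h | h
        · exact key v h
        · rw [hS v w hw, hS' v w hw]
          exact key w h
    rw [card_powerset] at this
    exact this.trans (Nat.pow_le_pow_right (by norm_num) hT1)
  have c2 : S2.card ≤ 2 ^ (t + 1) := by
    have : S2.card ≤ T.powerset.card := by
      apply Finset.card_le_card_of_injOn (fun S => S ∩ T)
      · intro S _
        simp only [coe_powerset, Set.mem_preimage, Set.mem_powerset_iff, coe_subset]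
        exact inter_subset_right
      · intro S hS S' hS' h
        have hS := (mem_filter.1 (mem_coe.1 hS)).2
        have hS' := (mem_filter.1 (mem_coe.1 hS')).2
        have key : ∀ x ∈ T, (x ∈ S ↔ x ∈ S') := by
          intro x hx
          have := congrArg (fun A : Finset (Fin n) => x ∈ A) h
          simpa [hx] using this
        ext v
        obtain ⟨w, hw⟩ := hG v
        rcases hT2 v w hw with h | h
        · exact key v h
        · rw [hS v w hw, hS' v w hw]
          exact not_congr (key w h)
    rw [card_powerset] at this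
    exact this.trans (Nat.pow_le_pow_right (by norm_num) hT1)
  have hcov : range (n + t + 1) ⊆ (S1 ∪ S2).biUnion (fun S => Icc S.card (S.card + t)) := by
    intro a ha
    have ha := mem_range.1 ha
    let R : SimpleGraph (Fin (n + t)) :=
      { Adj := fun x y => x ≠ y ∧ ((x : ℕ) < a ↔ (y : ℕ) < a)
        symm := ⟨fun x y h => ⟨h.1.symm, h.2.symm⟩⟩
        loopless := ⟨fun x h => h.1 rfl⟩ }
    have bound : ∀ φ : Fin n → Fin (n + t), Function.Injective φ →
        a ∈ Icc (univ.filter (fun v => (φ v : ℕ) < a)).card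
          ((univ.filter (fun v => (φ v : ℕ) < a)).card + t) := by
      intro φ hφ
      have h1 : (univ.filter (fun v => (φ v : ℕ) < a)).card ≤ (range a).card := by
        apply Finset.card_le_card_of_injOn (fun v => (φ v : ℕ))
        · intro v hv
          have := (mem_filter.1 (mem_coe.1 hv)).2
          simpa using this
        · intro v _ w _ h
          exact hφ (Fin.ext h)
      have h2 : (univ.filter (fun v => ¬ (φ v : ℕ) < a)).card ≤ (Ico a (n + t)).card := by
        apply Finset.card_le_card_of_injOn (fun v => (φ v : ℕ))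
        · intro v hv
          have := (mem_filter.1 (mem_coe.1 hv)).2
          simp only [coe_Ico, Set.mem_Ico]
          exact ⟨not_lt.1 this, (φ v).2⟩
        · intro v _ w _ h
          exact hφ (Fin.ext h)
      have h3 := Finset.card_filter_add_card_filter_not (s := (univ : Finset (Fin n)))
        (fun v => (φ v : ℕ) < a)
      rw [card_range] at h1
      rw [Nat.card_Ico] at h2
      rw [card_univ, Fintype.card_fin] at h3
      rw [mem_Icc]
      omega
    rw [mem_biUnion]
    rcases hN R with h | h
    · obtain ⟨φ⟩ := h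
      refine ⟨univ.filter (fun v => (φ v : ℕ) < a), mem_union_left _ ?_, bound φ φ.injective⟩
      rw [mem_filter]
      refine ⟨mem_univ _, fun u v huv => ?_⟩
      have h1 := (φ.toHom.map_adj huv).2
      simpa using h1
    · obtain ⟨φ⟩ := h
      refine ⟨univ.filter (fun v => (φ v : ℕ) < a), mem_union_right _ ?_, bound φ φ.injective⟩
      rw [mem_filter]
      refine ⟨mem_univ _, fun u v huv => ?_⟩
      have h1 := φ.toHom.map_adj huv
      rw [SimpleGraph.compl_adj] at h1
      have h2 : ¬ ((φ u : ℕ) < a ↔ (φ v : ℕ) < a) := fun h => h1.2 ⟨h1.1, h⟩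
      simp only [mem_filter, mem_univ, true_and]
      tauto
  have h5 := (card_le_card hcov).trans card_biUnion_le
  have h6 : ∑ S ∈ S1 ∪ S2, (Icc S.card (S.card + t)).card = (S1 ∪ S2).card * (t + 1) := by
    rw [Finset.sum_congr rfl (g := fun _ => t + 1), sum_const, smul_eq_mul]
    intro S _
    rw [Nat.card_Icc]
    omega
  rw [h6, card_range] at h5
  have h7 : (S1 ∪ S2).card ≤ 2 ^ (t + 2) := by
    refine (card_union_le _ _).trans ?_
    rw [pow_succ 2 (t + 1)]
    omega
  have h8 := Nat.mul_le_mul_right (t + 1) h7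
  omega

end Q58.MR
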