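import Mathlib

set_option autoImplicit false

open Finset

namespace Q58.MR

section
variable {V : Type*} [Fintype V]

open scoped Classical in
/-- The neighbours of the centres `c j`, `j ∈ K`, outside the first `i` centres. -/
noncomputable def nb (H : SimpleGraph V) (c : ℕ → V) (i : ℕ) (K : Finset ℕ) : Finset V :=
  (univ.filter fun v => (∃ j ∈ K, H.Adj (c j) v) ∧ ∀ j < i, c j ≠ v)

theorem mem_nb {H : SimpleGraph V} {c : ℕ → V} {i : ℕ} {K : Finset ℕ} {v : V} :
    v ∈ nb H c i K ↔ (∃ j ∈ K, H.Adj (c j) v) ∧ ∀ j < i, c j ≠ v := by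
  simp [nb]

/-- `c 0, …, c (i - 1)` are different and satisfy Hall's condition with a surplus. -/
structure Inv (H : SimpleGraph V) (s : ℕ → ℕ) (m i : ℕ) (c : ℕ → V) : Prop where
  inj : ∀ j < i, ∀ k < i, c j = c k → j = k
  hall : ∀ K ⊆ range i, K.Nonempty → ∑ j ∈ K, s j + (m - i) ≤ (nb H c i K).card

theorem card_fib {i : ℕ} (s : ℕ → ℕ) (S : Finset (Σ j : Fin i, Fin (s j))) :
    S.card ≤ ∑ j ∈ S.image (fun x => (x.1 : ℕ)), s j := by
  classical
  rw [Finset.card_eq_sum_card_image (fun x => (x.1 : ℕ)) S]
  apply Finset.sum_le_sum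
  intro k _
  calc #{x ∈ S | (x.1 : ℕ) = k} ≤ (range (s k)).card := by
        apply Finset.card_le_card_of_injOn (fun x => (x.2 : ℕ))
        · intro x hx
          simp only [coe_filter, Set.mem_ofPred_eq] at hx
          have := x.2.2
          simp only [coe_range, Set.mem_Iio]
          rw [← hx.2]; exact this
        · rintro ⟨⟨a, ha⟩, b⟩ hx ⟨⟨a', ha'⟩, b'⟩ hy hxy
          simp only [coe_filter, Set.mem_ofPred_eq] at hx hy hxy
          obtain ⟨_, rfl⟩ := hx
          obtain ⟨_, h⟩ := hy
          subst h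
          simp only [Fin.val_inj] at hxy
          rw [hxy]
    _ = s k := card_range _

theorem Inv.assign {H : SimpleGraph V} {s : ℕ → ℕ} {m i : ℕ} {c : ℕ → V} (h : Inv H s m i c) :
    ∃ e : (Σ j : Fin i, Fin (s j)) → V, Function.Injective e ∧
      ∀ x, H.Adj (c x.1) (e x) ∧ ∀ j < i, c j ≠ e x := by
  classical
  obtain ⟨e, he, h2⟩ := (Finset.all_card_le_biUnion_card_iff_exists_injective
    (fun x : (Σ j : Fin i, Fin (s j)) => nb H c i {(x.1 : ℕ)})).1 (by
      intro S
      rcases S.eq_empty_or_nonempty with rfl | hS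
      · simp
      have hsub : S.image (fun x => (x.1 : ℕ)) ⊆ range i := by
        intro k hk
        obtain ⟨x, _, rfl⟩ := mem_image.1 hk
        exact mem_range.2 x.1.2
      have h1 := h.hall _ hsub (hS.image _)
      have h3 : nb H c i (S.image (fun x => (x.1 : ℕ))) ⊆
          S.biUnion (fun x : (Σ j : Fin i, Fin (s j)) => nb H c i {(x.1 : ℕ)}) := by
        intro v hv
        rw [mem_nb] at hv
        obtain ⟨⟨j, hj, hadj⟩, hc⟩ := hv
        obtain ⟨x, hx, rfl⟩ := mem_image.1 hj
        rw [mem_biUnion]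
        refine ⟨x, hx, ?_⟩
        rw [mem_nb]
        exact ⟨⟨_, mem_singleton_self _, hadj⟩, hc⟩
      have := card_fib s S
      have := card_le_card h3
      omega)
  refine ⟨e, he, fun x => ?_⟩
  have := h2 x
  rw [mem_nb] at this
  obtain ⟨⟨j, hj, hadj⟩, hc⟩ := this
  rw [mem_singleton] at hj
  subst hj
  exact ⟨hadj, hc⟩

theorem card_filter_fib {i : ℕ} (s : ℕ → ℕ) (K : Finset ℕ) (hK : K ⊆ range i) :
    ((univ : Finset (Σ j : Fin i, Fin (s j))).filter (fun x => (x.1 : ℕ) ∈ K)).card =
      ∑ j ∈ K, s j := by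
  classical
  rw [Finset.card_eq_sum_card_fiberwise (f := fun x : (Σ j : Fin i, Fin (s j)) => (x.1 : ℕ)) (t := K)]
  · apply Finset.sum_congr rfl
    intro k hk
    have hki : k < i := mem_range.1 (hK hk)
    have : (((univ : Finset (Σ j : Fin i, Fin (s j))).filter (fun x => (x.1 : ℕ) ∈ K)).filter
        (fun x => (x.1 : ℕ) = k)) =
        (univ : Finset (Fin (s k))).image (fun y => (⟨⟨k, hki⟩, y⟩ : Σ j : Fin i, Fin (s j))) := by
      ext ⟨⟨a, ha⟩, b⟩
      simp only [mem_filter, mem_univ, true_and, mem_image]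
      constructor
      · rintro ⟨_, rfl⟩
        exact ⟨b, rfl⟩
      · rintro ⟨y, hy⟩
        have h1 := congrArg (fun x : (Σ j : Fin i, Fin (s j)) => (x.1 : ℕ)) hy
        simp only at h1
        subst h1
        exact ⟨hk, rfl⟩
    rw [this, card_image_of_injective, card_univ, Fintype.card_fin]
    intro y z hyz
    simpa using hyz
  · intro x hx
    simp only [coe_filter, mem_univ, true_and, Set.mem_ofPred_eq] at hx
    exact hx

open scoped Classical in
theorem Inv.free {H : SimpleGraph V} {s : ℕ → ℕ} {m i : ℕ} {c : ℕ → V} (h : Inv H s m i c) :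
    ∃ U : Finset V, (∀ j < i, c j ∉ U) ∧
      Fintype.card V ≤ U.card + i + ∑ j ∈ range i, s j ∧
      ∀ K ⊆ range i, ∀ W ⊆ U, ∑ j ∈ K, s j + W.card ≤ (nb H c i K ∪ W).card := by
  obtain ⟨e, he, h2⟩ := h.assign
  refine ⟨univ \ ((range i).image c ∪ univ.image e), ?_, ?_, ?_⟩
  · intro j hj
    simp only [mem_sdiff, mem_univ, true_and, mem_union, not_not, mem_image]
    exact Or.inl ⟨j, mem_range.2 hj, rfl⟩
  · have h3 : ((range i).image c ∪ univ.image e).card ≤ i + ∑ j ∈ range i, s j := by
      refine (card_union_le _ _).trans (Nat.add_le_add ?_ ?_)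
      · exact card_image_le.trans (by simp)
      · refine card_image_le.trans ?_
        rw [card_univ, Fintype.card_sigma]
        simp only [Fintype.card_fin]
        rw [Fin.sum_univ_eq_sum_range (fun j => s j) i]
    have h4 : (univ : Finset V).card ≤ (univ \ ((range i).image c ∪ univ.image e)).card +
        ((range i).image c ∪ univ.image e).card := by
      have := Finset.le_card_sdiff ((range i).image c ∪ univ.image e) (univ : Finset V)
      omega
    rw [card_univ] at h4
    omega
  · intro K hK W hW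
    have h5 : (((univ : Finset (Σ j : Fin i, Fin (s j))).filter (fun x => (x.1 : ℕ) ∈ K)).image e)
        ⊆ nb H c i K := by
      intro v hv
      obtain ⟨x, hx, rfl⟩ := mem_image.1 hv
      rw [mem_filter] at hx
      rw [mem_nb]
      exact ⟨⟨_, hx.2, (h2 x).1⟩, (h2 x).2⟩
    have h6 : Disjoint (((univ : Finset (Σ j : Fin i, Fin (s j))).filter
        (fun x => (x.1 : ℕ) ∈ K)).image e) W := by
      rw [disjoint_left]
      intro v hv hvW
      have := hW hvW
      simp only [mem_sdiff, mem_univ, true_and, mem_union, not_or] at this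
      obtain ⟨x, _, rfl⟩ := mem_image.1 hv
      exact this.2 (mem_image_of_mem _ (mem_univ _))
    calc ∑ j ∈ K, s j + W.card = (((univ : Finset (Σ j : Fin i, Fin (s j))).filter
        (fun x => (x.1 : ℕ) ∈ K)).image e ∪ W).card := by
          rw [card_union_of_disjoint h6, card_image_of_injective _ he, card_filter_fib s K hK]
      _ ≤ _ := card_le_card (union_subset_union h5 (Subset.refl _))

open scoped Classical in
theorem Inv.extend {H : SimpleGraph V} {s : ℕ → ℕ} {m i : ℕ} {c : ℕ → V} (h : Inv H s m i c)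
    (hi : i < m) (U : Finset V) (hU : ∀ j < i, c j ∉ U)
    (hUK : ∀ K ⊆ range i, ∀ W ⊆ U, ∑ j ∈ K, s j + W.card ≤ (nb H c i K ∪ W).card)
    (v : V) (hv : ∀ j < i, c j ≠ v) (A W : Finset V) (hAU : A ⊆ U) (hWA : W ⊆ A)
    (hW : ∀ w ∈ W, H.Adj v w)
    (hA1 : A.card ≤ 2 * W.card + 1) (hA2 : 2 * s i + 2 * (m - i) ≤ A.card) :
    Inv H s m (i + 1) (Function.update c i v) := by
  have hlt : ∀ j, j < i → Function.update c i v j = c j := fun j hj =>
    Function.update_of_ne (by omega) _ _
  have hself : Function.update c i v i = v := Function.update_self _ _ _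
  constructor
  · intro j hj k hk hjk
    rcases Nat.lt_succ_iff_lt_or_eq.1 hj with hj | rfl <;>
      rcases Nat.lt_succ_iff_lt_or_eq.1 hk with hk | rfl
    · rw [hlt j hj, hlt k hk] at hjk
      exact h.inj j hj k hk hjk
    · rw [hlt j hj, hself] at hjk
      exact absurd hjk (hv j hj)
    · rw [hlt k hk, hself] at hjk
      exact absurd hjk.symm (hv k hk)
    · rfl
  · intro K hK hKn
    have key : ∀ K' ⊆ range i, (∀ j ∈ K', j ∈ K) → ∀ w, w ∈ nb H c i K' → w ≠ v →
        w ∈ nb H (Function.update c i v) (i + 1) K := by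
      intro K' hK' hKK w hw hwv
      rw [mem_nb] at hw ⊢
      obtain ⟨⟨j, hj, hadj⟩, hc⟩ := hw
      refine ⟨⟨j, hKK j hj, ?_⟩, ?_⟩
      · rw [hlt j (mem_range.1 (hK' hj))]; exact hadj
      · intro k hk
        rcases Nat.lt_succ_iff_lt_or_eq.1 hk with hk | rfl
        · rw [hlt k hk]; exact hc k hk
        · rw [hself]; exact hwv.symm
    by_cases hiK : i ∈ K
    · have hK'sub : K.erase i ⊆ range i := by
        intro j hj
        rw [mem_erase] at hj
        have := mem_range.1 (hK hj.2)
        exact mem_range.2 (by omega)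
      have h1 := hUK (K.erase i) hK'sub W (hWA.trans hAU)
      have h2 : (nb H c i (K.erase i) ∪ W).erase v ⊆
          nb H (Function.update c i v) (i + 1) K := by
        intro w hw
        rw [mem_erase, mem_union] at hw
        obtain ⟨hwv, hw | hw⟩ := hw
        · exact key _ hK'sub (fun j hj => mem_of_mem_erase hj) w hw hwv
        · rw [mem_nb]
          refine ⟨⟨i, hiK, ?_⟩, ?_⟩
          · rw [hself]; exact hW w hw
          · intro k hk
            rcases Nat.lt_succ_iff_lt_or_eq.1 hk with hk | rfl
            · rw [hlt k hk]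
              rintro rfl
              exact hU k hk (hAU (hWA hw))
            · rw [hself]; exact hwv.symm
      have h3 := card_le_card h2
      have h4 : (nb H c i (K.erase i) ∪ W).card ≤
          ((nb H c i (K.erase i) ∪ W).erase v).card + 1 := by
        have := Finset.pred_card_le_card_erase (s := nb H c i (K.erase i) ∪ W) (a := v)
        omega
      have h5 : ∑ j ∈ K, s j = s i + ∑ j ∈ K.erase i, s j :=
        (Finset.add_sum_erase K s hiK).symm
      omega
    · have hKsub : K ⊆ range i := by
        intro j hj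
        have := mem_range.1 (hK hj)
        have hne : j ≠ i := fun e => hiK (e ▸ hj)
        exact mem_range.2 (by omega)
      have h1 := h.hall K hKsub hKn
      have h2 : (nb H c i K).erase v ⊆ nb H (Function.update c i v) (i + 1) K := by
        intro w hw
        rw [mem_erase] at hw
        exact key K hKsub (fun j hj => hj) w hw.2 hw.1
      have h3 := card_le_card h2
      have h4 : (nb H c i K).card ≤ ((nb H c i K).erase v).card + 1 := by
        have := Finset.pred_card_le_card_erase (s := nb H c i K) (a := v)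
        omega
      omega

open scoped Classical in
theorem halve (R : SimpleGraph V) (A B : Finset V) (hA : A.Nonempty) :
    (∃ v ∈ B, A.card ≤ 2 * (A.filter (fun w => R.Adj v w)).card + 1) ∨
      (∃ u ∈ A, B.card ≤ 2 * (B.filter (fun w => Rᶜ.Adj u w)).card + 1) := by
  by_contra hcon
  push Not at hcon
  obtain ⟨h1, h2⟩ := hcon
  have e1 : ∑ v ∈ B, (2 * (A.filter (fun w => R.Adj v w)).card + 2) ≤ ∑ v ∈ B, A.card :=
    Finset.sum_le_sum fun v hv => by have := h1 v hv; omega
  have e2 : ∑ u ∈ A, (2 * (B.filter (fun w => Rᶜ.Adj u w)).card + 2) ≤ ∑ u ∈ A, B.card :=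
    Finset.sum_le_sum fun v hv => by have := h2 v hv; omega
  have e3 : ∑ v ∈ B, A.card ≤ ∑ v ∈ B, ((A.filter (fun w => R.Adj v w)).card +
      (A.filter (fun w => Rᶜ.Adj w v)).card + 1) := by
    apply Finset.sum_le_sum
    intro v hv
    have : A ⊆ (A.filter (fun w => R.Adj v w)) ∪ (A.filter (fun w => Rᶜ.Adj w v)) ∪ {v} := by
      intro w hw
      simp only [mem_union, mem_filter, mem_singleton, SimpleGraph.compl_adj]
      by_cases hwv : w = v
      · exact Or.inr hwv
      · by_cases ha : R.Adj v w
        · exact Or.inl (Or.inl ⟨hw, ha⟩)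
        · exact Or.inl (Or.inr ⟨hw, hwv, fun h => ha h.symm⟩)
    refine (card_le_card this).trans ((card_union_le _ _).trans ?_)
    rw [card_singleton]
    exact Nat.add_le_add_right (card_union_le _ _) 1
  have e4 : ∑ v ∈ B, (A.filter (fun w => Rᶜ.Adj w v)).card =
      ∑ u ∈ A, (B.filter (fun w => Rᶜ.Adj u w)).card :=
    (Finset.sum_card_bipartiteAbove_eq_sum_card_bipartiteBelow (s := A) (t := B)
      (fun u w => Rᶜ.Adj u w)).symm
  simp only [Finset.sum_add_distrib, Finset.sum_const, smul_eq_mul, ← Finset.mul_sum] at e1 e2 e3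
  have hA' := hA.card_pos
  rw [e4] at e3
  nlinarith [e1, e2, e3, hA']

theorem exists_inv (R : SimpleGraph V) [Nonempty V] (s : ℕ → ℕ) (m : ℕ)
    (hN : ∀ i < m, ∑ j ∈ range i, s j + 2 * s i + 3 * m ≤ Fintype.card V + i + 1) :
    (∃ c, Inv R s m m c) ∨ (∃ c, Inv Rᶜ s m m c) := by
  classical
  have main : ∀ q : ℕ, ∃ i k c d, Inv R s m i c ∧ Inv Rᶜ s m k d ∧ i ≤ m ∧ k ≤ m ∧
      (i = m ∨ k = m ∨ q ≤ i + k) := by
    intro q
    induction q with
    | zero =>
      refine ⟨0, 0, fun _ => Classical.arbitrary V, fun _ => Classical.arbitrary V, ?_, ?_,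
        Nat.zero_le _, Nat.zero_le _, Or.inr (Or.inr (by omega))⟩ <;>
      · constructor
        · intro j hj; omega
        · intro K hK hKn
          obtain ⟨x, hx⟩ := hKn
          have := hK hx
          simp at this
    | succ q ih =>
      obtain ⟨i, k, c, d, hc, hd, hi, hk, h⟩ := ih
      by_cases him : i = m
      · exact ⟨i, k, c, d, hc, hd, hi, hk, Or.inl him⟩
      by_cases hkm : k = m
      · exact ⟨i, k, c, d, hc, hd, hi, hk, Or.inr (Or.inl hkm)⟩
      have hq : q ≤ i + k := by
        rcases h with h | h | h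
        · exact absurd h him
        · exact absurd h hkm
        · exact h
      have hi' : i < m := by omega
      have hk' : k < m := by omega
      obtain ⟨U, hU1, hU2, hU3⟩ := hc.free
      obtain ⟨W, hW1, hW2, hW3⟩ := hd.free
      have cA : U.card ≤ (U \ (range k).image d).card + k := by
        have h1 := Finset.le_card_sdiff ((range k).image d) U
        have h2 : ((range k).image d).card ≤ k := card_image_le.trans (by simp)
        omega
      have cB : W.card ≤ (W \ (range i).image c).card + i := by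
        have h1 := Finset.le_card_sdiff ((range i).image c) W
        have h2 : ((range i).image c).card ≤ i := card_image_le.trans (by simp)
        omega
      have n1 := hN i hi'
      have n2 := hN k hk'
      have cA2 : 2 * s i + 2 * (m - i) ≤ (U \ (range k).image d).card := by omega
      have cB2 : 2 * s k + 2 * (m - k) ≤ (W \ (range i).image c).card := by omega
      have hA : (U \ (range k).image d).Nonempty := card_pos.1 (by omega)
      rcases halve R (U \ (range k).image d) (W \ (range i).image c) hA with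
        ⟨v, hv, hv2⟩ | ⟨v, hv, hv2⟩
      · have hvc : ∀ j < i, c j ≠ v := by
          intro j hj e
          rw [mem_sdiff] at hv
          exact hv.2 (mem_image.2 ⟨j, mem_range.2 hj, e⟩)
        have := hc.extend hi' U hU1 hU3 v hvc (U \ (range k).image d) _ sdiff_subset
          (filter_subset _ _) (fun w hw => (mem_filter.1 hw).2) hv2 cA2
        exact ⟨i + 1, k, _, d, this, hd, by omega, hk, Or.inr (Or.inr (by omega))⟩
      · have hvd : ∀ j < k, d j ≠ v := by
          intro j hj e
          rw [mem_sdiff] at hv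
          exact hv.2 (mem_image.2 ⟨j, mem_range.2 hj, e⟩)
        have := hd.extend hk' W hW1 hW3 v hvd (W \ (range i).image c) _ sdiff_subset
          (filter_subset _ _) (fun w hw => (mem_filter.1 hw).2) hv2 cB2
        exact ⟨i, k + 1, c, _, hc, this, hi, by omega, Or.inr (Or.inr (by omega))⟩
  obtain ⟨i, k, c, d, hc, hd, hi, hk, h⟩ := main (2 * m + 1)
  rcases h with rfl | rfl | h
  · exact Or.inl ⟨c, hc⟩
  · exact Or.inr ⟨d, hd⟩
  · omega

end

end Q58.MR
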