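import Mathlib
import Pool.Agent.Q58.MR.Core

set_option autoImplicit false

open Finset

namespace Q58.MR

/-- The disjoint union of `m` stars, the `j`-th one with `s j` leaves. -/
def forest (s : ℕ → ℕ) (m : ℕ) : SimpleGraph (Σ j : Fin m, Fin (s j + 1)) where
  Adj x y := x.1 = y.1 ∧ (((x.2 : ℕ) = 0 ∧ (y.2 : ℕ) ≠ 0) ∨ ((x.2 : ℕ) ≠ 0 ∧ (y.2 : ℕ) = 0))
  symm := ⟨fun x y h => ⟨h.1.symm, h.2.elim (fun h => Or.inr ⟨h.2, h.1⟩) (fun h => Or.inl ⟨h.2, h.1⟩)⟩⟩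
  loopless := ⟨fun x h => by
    obtain ⟨_, h | h⟩ := h
    · exact h.2 h.1
    · exact h.1 h.2⟩

theorem forest_noIsolated (s : ℕ → ℕ) (m : ℕ) (hs : ∀ j < m, 1 ≤ s j)
    (x : Σ j : Fin m, Fin (s j + 1)) : ∃ y, (forest s m).Adj x y := by
  obtain ⟨j, k⟩ := x
  by_cases hk : (k : ℕ) = 0
  · refine ⟨⟨j, ⟨1, by have := hs j j.2; omega⟩⟩, rfl, Or.inl ⟨hk, by simp⟩⟩
  · exact ⟨⟨j, ⟨0, by omega⟩⟩, rfl, Or.inr ⟨hk, rfl⟩⟩

theorem forest_contained {V : Type*} [Fintype V] {H : SimpleGraph V} {s : ℕ → ℕ} {m : ℕ}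
    {c : ℕ → V} (h : Inv H s m m c) : (forest s m).IsContained H := by
  obtain ⟨e, he, h2⟩ := h.assign
  let φ : (Σ j : Fin m, Fin (s j + 1)) → V := fun x =>
    if hx : (x.2 : ℕ) = 0 then c x.1 else e ⟨x.1, ⟨(x.2 : ℕ) - 1, by have := x.2.2; omega⟩⟩
  have hφ0 : ∀ x : (Σ j : Fin m, Fin (s j + 1)), (x.2 : ℕ) = 0 → φ x = c x.1 := fun x hx => dif_pos hx
  have hφ1 : ∀ x : (Σ j : Fin m, Fin (s j + 1)), ∀ hx : (x.2 : ℕ) ≠ 0,
    φ x = e ⟨x.1, ⟨(x.2 : ℕ) - 1, by have := x.2.2; omega⟩⟩ := fun x hx => dif_neg hx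
  have hadj : ∀ x y, (x.1 = y.1 ∧ (x.2 : ℕ) = 0 ∧ (y.2 : ℕ) ≠ 0) → H.Adj (φ x) (φ y) := by
    rintro x y ⟨h1, hx, hy⟩
    rw [hφ0 x hx, hφ1 y hy, h1]
    exact (h2 ⟨y.1, ⟨(y.2 : ℕ) - 1, by have := y.2.2; omega⟩⟩).1
  refine ⟨⟨⟨φ, ?_⟩, ?_⟩⟩
  · intro x y hxy
    obtain ⟨h1, h | h⟩ := hxy
    · exact hadj x y ⟨h1, h⟩
    · exact (hadj y x ⟨h1.symm, h.2, h.1⟩).symm
  · intro x y hxy
    change φ x = φ y at hxy
    obtain ⟨j, k⟩ := x
    obtain ⟨j', k'⟩ := y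
    by_cases hk : (k : ℕ) = 0 <;> by_cases hk' : (k' : ℕ) = 0
    · rw [hφ0 _ hk, hφ0 _ hk'] at hxy
      have := Fin.ext (h.inj j j.2 j' j'.2 hxy)
      subst this
      have : k = k' := Fin.ext (by omega)
      rw [this]
    · rw [hφ0 _ hk, hφ1 _ hk'] at hxy
      exact absurd hxy ((h2 _).2 j j.2)
    · rw [hφ1 _ hk, hφ0 _ hk'] at hxy
      exact absurd hxy.symm ((h2 _).2 j' j'.2)
    · rw [hφ1 _ hk, hφ1 _ hk'] at hxy
      have h3 := he hxy
      simp only [Sigma.mk.injEq] at h3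
      obtain ⟨h4, h5⟩ := h3
      subst h4
      simp only [heq_eq_eq, Fin.mk.injEq] at h5
      have : k = k' := Fin.ext (by omega)
      rw [this]

theorem forest_arrows (s : ℕ → ℕ) (m N : ℕ) (hm : 1 ≤ m)
    (hN : ∀ i < m, ∑ j ∈ range i, s j + 2 * s i + 3 * m ≤ N + i + 1)
    (R : SimpleGraph (Fin N)) : (forest s m).IsContained R ∨ (forest s m).IsContained Rᶜ := by
  have h0 := hN 0 (by omega)
  have : Nonempty (Fin N) := ⟨⟨0, by omega⟩⟩
  rcases exists_inv R s m (by simpa using hN) with ⟨c, hc⟩ | ⟨c, hc⟩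
  · exact Or.inl (forest_contained hc)
  · exact Or.inr (forest_contained hc)

/-- the sizes -/
def sz (n m : ℕ) (i : ℕ) : ℕ := if i = 0 then n + 2 - 2 * m - 2 ^ (m - 1) else 2 ^ (m - 1 - i) + 1

theorem sum_sz (n m : ℕ) (h1 : 2 ^ (m - 1) + 2 * m ≤ n + 1) :
    ∀ i, i < m → ∑ j ∈ range (i + 1), sz n m j + 2 ^ (m - 1 - i) + (m - 1 - i) + m = n + 1 := by
  intro i
  induction i with
  | zero =>
    intro hm
    have : sz n m 0 = n + 2 - 2 * m - 2 ^ (m - 1) := if_pos rfl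
    rw [zero_add, Finset.sum_range_one, this]
    simp only [Nat.sub_zero]
    omega
  | succ i ih =>
    intro hm
    rw [Finset.sum_range_succ]
    have h2 := ih (by omega)
    have h3 : sz n m (i + 1) = 2 ^ (m - 1 - (i + 1)) + 1 := if_neg (by omega)
    have h4 : 2 ^ (m - 1 - i) = 2 * 2 ^ (m - 1 - (i + 1)) := by
      rw [← pow_succ']
      congr 1
      omega
    rw [h3]
    omega

theorem upper (n m : ℕ) (hm : 1 ≤ m) (h1 : 2 ^ (m - 1) + 2 * m ≤ n + 1)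
    (h2 : n ≤ 2 ^ m + 2 * m) :
    ∃ G : SimpleGraph (Fin n), (∀ v, ∃ w, G.Adj v w) ∧
      ∀ R : SimpleGraph (Fin (n + m + 3)), G.IsContained R ∨ G.IsContained Rᶜ := by
  have hcard : Fintype.card (Σ j : Fin m, Fin (sz n m j + 1)) = n := by
    rw [Fintype.card_sigma]
    simp only [Fintype.card_fin]
    rw [Fin.sum_univ_eq_sum_range (fun j => sz n m j + 1) m, Finset.sum_add_distrib]
    have := sum_sz n m h1 (m - 1) (by omega)
    rw [Nat.sub_self, pow_zero, Nat.sub_add_cancel hm] at this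
    simp only [sum_const, card_range, smul_eq_mul, mul_one]
    omega
  have hpos : ∀ j < m, 1 ≤ sz n m j := by
    intro j hj
    unfold sz
    split_ifs with h
    · omega
    · exact Nat.le_add_left _ _
  have harr := forest_arrows (sz n m) m (n + m + 3) hm (by
    intro i hi
    have h2m : 2 ^ m = 2 * 2 ^ (m - 1) := by
      rw [← pow_succ']; congr 1; omega
    rcases Nat.eq_zero_or_pos i with rfl | hi0
    · have : sz n m 0 = n + 2 - 2 * m - 2 ^ (m - 1) := if_pos rfl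
      rw [this]
      simp only [range_zero, sum_empty]
      omega
    · have h3 : sz n m i = 2 ^ (m - 1 - i) + 1 := if_neg (by omega)
      have h4 := sum_sz n m h1 (i - 1) (by omega)
      rw [Nat.sub_add_cancel hi0] at h4
      have h5 : 2 ^ (m - 1 - (i - 1)) = 2 * 2 ^ (m - 1 - i) := by
        rw [← pow_succ']; congr 1; omega
      rw [h3]
      omega)
  let ε := Fintype.equivFinOfCardEq hcard
  let iso : forest (sz n m) m ≃g (forest (sz n m) m).map ε.toEmbedding :=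
    SimpleGraph.Iso.map ε _
  refine ⟨(forest (sz n m) m).map ε.toEmbedding, ?_, ?_⟩
  · intro v
    obtain ⟨y, hy⟩ := forest_noIsolated (sz n m) m hpos (iso.symm v)
    exact ⟨iso y, by
      have := iso.map_rel_iff.2 hy
      rwa [RelIso.apply_symm_apply] at this⟩
  · intro R
    rcases harr R with h | h
    · exact Or.inl (SimpleGraph.IsContained.trans ⟨iso.symm.toCopy⟩ h)
    · exact Or.inr (SimpleGraph.IsContained.trans ⟨iso.symm.toCopy⟩ h)

end Q58.MR
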