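import Mathlib
import Pool.Agent.Q58.MR.Upper
import Pool.Agent.Q58.MR.Lower

set_option autoImplicit false

open Filter Topology

namespace Q58.MR

theorem exists_m (n : ℕ) (hn : 2 ≤ n) :
    ∃ m : ℕ, 1 ≤ m ∧ 2 ^ (m - 1) + 2 * m ≤ n + 1 ∧ n ≤ 2 ^ m + 2 * m := by
  induction n, hn using Nat.le_induction with
  | base => exact ⟨1, by norm_num⟩
  | succ n hn ih =>
    obtain ⟨m, hm, h1, h2⟩ := ih
    by_cases h : n + 1 ≤ 2 ^ m + 2 * m
    · exact ⟨m, hm, by omega, h⟩
    · refine ⟨m + 1, by omega, ?_, ?_⟩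
      · rw [Nat.add_sub_cancel]; omega
      · have : 2 ^ m ≤ 2 ^ (m + 1) := Nat.pow_le_pow_right (by norm_num) (by omega)
        have h3 : 1 ≤ 2 ^ m := Nat.one_le_two_pow
        omega

theorem m_le (n m : ℕ) (hm : 1 ≤ m) (h1 : 2 ^ (m - 1) + 2 * m ≤ n + 1) :
    (m : ℝ) ≤ Real.logb 2 n + 1 := by
  have h2 : 2 ^ (m - 1) ≤ n := by omega
  have h3 : ((2 : ℝ) ^ (m - 1)) ≤ n := by exact_mod_cast h2
  have hn : (0 : ℝ) < n := lt_of_lt_of_le (by positivity) h3
  have h4 : ((m - 1 : ℕ) : ℝ) ≤ Real.logb 2 n := by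
    rw [Real.le_logb_iff_rpow_le (by norm_num) hn, Real.rpow_natCast]
    exact h3
  rw [Nat.cast_sub hm] at h4
  push_cast at h4
  linarith

theorem logb_bound (n t : ℕ) (hn : 2 ≤ n) (h : n < 2 ^ (t + 2) * (t + 1)) :
    Real.logb 2 n - Real.logb 2 (Real.logb 2 n) - 2 < t := by
  have hn' : (2 : ℝ) ≤ n := by exact_mod_cast hn
  have h1 : (n : ℝ) < 2 ^ (t + 2) * (t + 1) := by exact_mod_cast h
  have h2 : Real.logb 2 n < (t + 2) + Real.logb 2 (t + 1) := by
    have h3 := Real.logb_lt_logb (b := 2) (by norm_num) (by linarith) h1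
    rw [Real.logb_mul (by positivity) (by positivity)] at h3
    have h4 : Real.logb 2 ((2 : ℝ) ^ (t + 2)) = t + 2 := by
      rw [← Real.rpow_natCast, Real.logb_rpow (by norm_num) (by norm_num)]
      push_cast; ring
    rw [h4] at h3
    exact h3
  have hL : 1 ≤ Real.logb 2 n := by
    rw [Real.le_logb_iff_rpow_le (by norm_num) (by linarith)]
    simpa using hn'
  by_contra hcon
  push Not at hcon
  have hLL : 0 ≤ Real.logb 2 (Real.logb 2 n) := Real.logb_nonneg (by norm_num) hL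
  have h5 : (t : ℝ) + 1 ≤ Real.logb 2 n := by linarith
  have h6 : Real.logb 2 ((t : ℝ) + 1) ≤ Real.logb 2 (Real.logb 2 n) :=
    Real.logb_le_logb_of_le (by norm_num) (by positivity) h5
  linarith

theorem tendsto_logb : Tendsto (fun n : ℕ => Real.logb 2 (n : ℝ)) atTop atTop :=
  (Real.tendsto_logb_atTop (by norm_num)).comp tendsto_natCast_atTop_atTop

theorem tendsto_loglog : Tendsto (fun x : ℝ => Real.logb 2 x / x) atTop (𝓝 0) := by
  have h := Real.isLittleO_log_id_atTop.tendsto_div_nhds_zero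
  have h2 := h.div_const (Real.log 2)
  rw [zero_div] at h2
  refine h2.congr fun x => ?_
  simp only [id, Real.logb]
  ring

theorem asym (f : ℕ → ℕ) (h1 : ∀ n : ℕ, 2 ≤ n → (f n : ℝ) ≤ n + Real.logb 2 n + 4)
    (h2 : ∀ n : ℕ, 2 ≤ n →
      (n : ℝ) + Real.logb 2 n - Real.logb 2 (Real.logb 2 n) - 2 < f n) :
    Tendsto (fun n : ℕ => ((f n : ℝ) - n) / Real.logb 2 n) atTop (𝓝 1) := by
  have hLL : Tendsto (fun n : ℕ => Real.logb 2 (Real.logb 2 n) / Real.logb 2 n) atTop (𝓝 0) :=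
    tendsto_loglog.comp tendsto_logb
  have hc : Tendsto (fun n : ℕ => (1 : ℝ) / Real.logb 2 n) atTop (𝓝 0) :=
    (tendsto_const_nhds (x := (1 : ℝ))).div_atTop tendsto_logb
  have hlow : Tendsto (fun n : ℕ => 1 - Real.logb 2 (Real.logb 2 n) / Real.logb 2 n
      - 2 * (1 / Real.logb 2 n)) atTop (𝓝 1) := by
    have := (tendsto_const_nhds (x := (1 : ℝ))).sub hLL |>.sub (hc.const_mul 2)
    simpa using this
  have hup : Tendsto (fun n : ℕ => 1 + 4 * (1 / Real.logb 2 (n : ℝ))) atTop (𝓝 1) := by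
    have := (tendsto_const_nhds (x := (1 : ℝ))).add (hc.const_mul 4)
    simpa using this
  have hpos : ∀ᶠ n : ℕ in atTop, 0 < Real.logb 2 (n : ℝ) :=
    tendsto_logb.eventually_gt_atTop 0
  refine tendsto_of_tendsto_of_tendsto_of_le_of_le' hlow hup ?_ ?_
  · filter_upwards [hpos, eventually_ge_atTop 2] with n hn hn2
    have := h2 n hn2
    rw [le_div_iff₀ hn]
    field_simp
    linarith
  · filter_upwards [hpos, eventually_ge_atTop 2] with n hn hn2
    have := h1 n hn2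
    rw [div_le_iff₀ hn]
    field_simp
    linarith

end Q58.MR
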